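import Pool.Agent.R828.CoCons

/-!
# MP_dd3b7d_gt: co-consonance of `P_S(X)` does not imply co-consonance of `X`

The unit interval `I` is not co-consonant while its Smyth powerspace is.  In general, `P_S(X)` is
co-consonant for every locally compact `X`, co-consonance of `P_S(X)` implies consonance of `X`,
and, when `P_S(X)` is co-consonant, `X` is co-consonant if and only if every compact subset of an
open set `U` lies in the saturation of a finite subset of `U`.
-/

namespace Pool.Agent.Results.MP_dd3b7d_gt.UnitInterval

open Set TopologicalSpace Pool.Agent.R828.CC

universe u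

/-- `CoConsonant`, `PS` (the Smyth powerspace), `Consonant` and `FinApprox` are defined in
`Pool/Agent/R828/CoCons.lean`. -/
theorem result :
    -- the counterexample
    (CoConsonant (PS unitInterval) ∧ ¬ CoConsonant unitInterval) ∧
    -- the Smyth powerspace of a locally compact space is co-consonant
    (∀ (X : Type u) [TopologicalSpace X] [LocallyCompactSpace X], CoConsonant (PS X)) ∧
    -- no infinite compact `T₁` space is co-consonant
    (∀ (X : Type u) [TopologicalSpace X] [CompactSpace X] [T1Space X] [Infinite X],
      ¬ CoConsonant X) ∧
    -- what survives of the implication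
    (∀ (X : Type u) [TopologicalSpace X], CoConsonant (PS X) → Consonant X) ∧
    (∀ (X : Type u) [TopologicalSpace X], CoConsonant (PS X) →
      (CoConsonant X ↔ FinApprox X)) := by
  have : Infinite unitInterval := (Set.Icc_infinite (zero_lt_one (α := ℝ))).to_subtype
  refine ⟨⟨coConsonant_PS_of_locallyCompact, not_coConsonant_of_compact⟩, ?_, ?_, ?_, ?_⟩
  · intro X _ _
    exact coConsonant_PS_of_locallyCompact
  · intro X _ _ _ _
    exact not_coConsonant_of_compact
  · intro X _ h
    exact consonant_of_coConsonant_PS h
  · intro X _ h
    rw [coConsonant_iff_consonant]
    exact and_iff_right (consonant_of_coConsonant_PS h)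

end Pool.Agent.Results.MP_dd3b7d_gt.UnitInterval
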